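import Pool.Agent.helper55.NM.Spec2

set_option autoImplicit false

namespace Pool.Agent.helper39.NM

open Pool.Agent.NM Pool.Agent.helper72.UP Finset Nat

theorem FLR : FLR_stmt := by
  intro ε hε
  obtain ⟨N, hN⟩ := exists_nat_gt (1 / ε)
  refine ⟨max N 6, ?_⟩
  intro n k hn h1 h2
  have hn6 : 6 ≤ n := le_trans (le_max_right _ _) hn
  have hnN : N ≤ n := le_trans (le_max_left _ _) hn
  have hnR : 1 < ε * n := by
    have h3 : 1 / ε < (n : ℝ) := lt_of_lt_of_le hN (by exact_mod_cast hnN)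
    rw [div_lt_iff₀ hε] at h3
    linarith
  have a1 : 2 * (k : ℝ) ≤ n := by
    have : (1 / 2 - ε) * (n : ℝ) = n / 2 - ε * n := by ring
    rw [this] at h2
    linarith
  have a2 : (n : ℝ) + 1 < 3 * k := by
    have : (1 / 3 + ε) * (n : ℝ) = n / 3 + ε * n := by ring
    rw [this] at h1
    linarith
  have b1 : 2 * k ≤ n := by exact_mod_cast a1
  have b2 : n + 1 < 3 * k := by exact_mod_cast a2
  refine ⟨?_, by omega, by omega⟩
  apply Nat.div_eq_of_lt_le
  · omega
  · omega

end Pool.Agent.helper39.NM
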